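import Pool.Agent.N132.DR.Defs
import Pool.Agent.N132.HT.Index

/-!
# The de Rham-Betti classes as a system of classes
-/

open CategoryTheory AlgebraicGeometry TensorProduct

set_option autoImplicit false
set_option linter.unusedSectionVars false

universe u

namespace Pool.Agent.N132.DR

open Module
open Pool.Agent.H914 Pool.Agent.H914.VarClass Pool.Agent.H914.VarClass.Obj
  Pool.Agent.H914.WeilCohomology Pool.Agent.Y133.Half Pool.Agent.Y121.AH
open Pool.Agent.R920.MT (IsMotivated IsSystem motPred powMul)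

variable {k : Type u} [Field k] {𝒱 : VarClass k} {ops : CycleOps 𝒱} {T : HodgeTheory ops}
  (D : DeRham T) {X Y Z : 𝒱.Obj}

theorem drb_zero (j : ℕ) : IsDRB D X j 0 :=
  ⟨Submodule.zero_mem _, 0, by rw [em_zero, map_zero, em_zero, smul_zero]⟩

variable {D}

theorem IsDRB.add {j : ℕ} {a b : T.W.H X} (ha : IsDRB D X j a) (hb : IsDRB D X j b) :
    IsDRB D X j (a + b) := by
  obtain ⟨ha, y, hy⟩ := ha
  obtain ⟨hb, z, hz⟩ := hb
  exact ⟨Submodule.add_mem _ ha hb, y + z, by rw [em_add, map_add, hy, hz, em_add, smul_add]⟩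

theorem IsDRB.smul {j : ℕ} (r : T.W.K) {a : T.W.H X} (ha : IsDRB D X j a) :
    IsDRB D X j (r • a) := by
  obtain ⟨q, rfl⟩ := T.rat r
  obtain ⟨ha, y, hy⟩ := ha
  refine ⟨Submodule.smul_mem _ _ ha, (q : D.V.K) • y, ?_⟩
  rw [em_smul, ex_rat, D.cmp.semi, hy, map_ratCast, em_smul, ex_rat, smul_comm]

theorem drb_cl {j : ℕ} {z : X.Cycles} (hz : X.IsCyc j z) : IsDRB D X j (T.W.cl X z) :=
  ⟨T.W.cl_mem hz, D.V.cl X z, D.cmp.cyc hz⟩

theorem IsDRB.mul {i j : ℕ} {a b : T.W.H X} (ha : IsDRB D X i a) (hb : IsDRB D X j b) :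
    IsDRB D X (i + j) (a * b) := by
  obtain ⟨ha, y, hy⟩ := ha
  obtain ⟨hb, z, hz⟩ := hb
  exact ⟨by rw [mul_add]; exact T.W.mul_mem ha hb, y * z, by
    rw [em_mul, map_mul, hy, hz, smul_mul_smul_comm, ← pow_add, em_mul]⟩

theorem IsDRB.map (f : X ⟶ Y) {j : ℕ} {a : T.W.H Y} (ha : IsDRB D Y j a) :
    IsDRB D X j (T.W.map f a) := by
  obtain ⟨ha, y, hy⟩ := ha
  exact ⟨T.W.map_mem f ha, D.V.map f y, by
    rw [← em_map, D.cmp.nat, hy, map_smul, em_map]⟩

theorem IsDRB.push (f : X ⟶ Y) {j l : ℕ} (hl : l + X.dim = j + Y.dim) {a : T.W.H X}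
    (ha : IsDRB D X j a) : IsDRB D Y l (T.W.push f a) := by
  obtain ⟨ha, y, hy⟩ := ha
  refine ⟨push_gr f hl ha, D.V.push f y, ?_⟩
  have h1 := D.cmp.push f (em T.W ℂ a)
  rw [hy, map_smul, em_push, em_push, smul_smul, ← pow_add,
    show Y.dim + j = X.dim + l by omega, pow_add, mul_smul] at h1
  exact smul_right_injective _ (pow_ne_zero _ D.cmp.ne) h1

theorem drb_lift {E : X.Cycles} (hE : X.IsCyc 1 E) {j m : ℕ}
    (hinj : ∀ x ∈ T.W.gr X (2 * j), T.W.cl X E ^ m * x = 0 → x = 0) {x : T.W.H X}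
    (hx : x ∈ T.W.gr X (2 * j)) (h : IsDRB D X (m + j) (T.W.cl X E ^ m * x)) :
    IsDRB D X j x := by
  obtain ⟨-, v', hc⟩ := h
  have hne : D.cmp.c ^ m ≠ 0 := pow_ne_zero _ D.cmp.ne
  have hcl : D.cmp.e X (em T.W ℂ (T.W.cl X E ^ m)) =
      D.cmp.c ^ m • em D.V ℂ (D.V.cl X E ^ m) := by
    rw [em_pow, ← em_cl, D.cmp.pow_cl hE, em_cl, ← em_pow]
  have h1 : ∀ y ∈ (baseW T.W ℂ).gr X (2 * j), em T.W ℂ (T.W.cl X E ^ m) * y = 0 → y = 0 :=
    fun y hy h => mul_inj_base hinj hy h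
  have h2 : ∀ y ∈ (baseW D.V ℂ).gr X (2 * j), em D.V ℂ (D.V.cl X E ^ m) * y = 0 → y = 0 :=
    D.cmp.inj hcl h1
  -- the image of `x`
  have h4 : em D.V ℂ (D.V.cl X E ^ m) * D.cmp.e X (em T.W ℂ x) = D.cmp.c ^ j • em D.V ℂ v' := by
    have h5 := hc
    rw [em_mul, map_mul, hcl, smul_mul_assoc, pow_add, mul_smul] at h5
    exact smul_right_injective _ hne h5
  have h5 : D.cmp.e X (em T.W ℂ x) ∈ (baseW D.V ℂ).gr X (2 * j) := D.cmp.gr.2 (em_gr hx)
  have hcor : ∀ y, y ∈ D.V.gr X (2 * j) → D.V.cl X E ^ m * y = v' →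
      D.cmp.e X (em T.W ℂ x) = D.cmp.c ^ j • em D.V ℂ y := by
    intro y hy hyv
    rw [← sub_eq_zero]
    apply h2 _ (Submodule.sub_mem _ h5 (Submodule.smul_mem _ _ (em_gr hy)))
    rw [mul_sub, h4, mul_smul_comm, ← em_mul, hyv, sub_self]
  -- existence
  have h6 : ∀ z ∈ (baseW D.V ℂ).gr X (2 * j), em D.V ℂ (D.V.cl X E ^ m) * z ∈
      ((D.V.gr X (2 * j)).map
        (LinearMap.mulLeft D.V.K (D.V.cl X E ^ m))).baseChange ℂ := by
    intro z hz
    have hz' : z ∈ (D.V.gr X (2 * j)).baseChange ℂ := hz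
    refine base_induction (P := fun z : ℂ ⊗[D.V.K] D.V.H X =>
      ((1 : ℂ) ⊗ₜ[D.V.K] (D.V.cl X E ^ m)) * z ∈
      ((D.V.gr X (2 * j)).map
        (LinearMap.mulLeft D.V.K (D.V.cl X E ^ m))).baseChange ℂ) ?_ ?_ ?_ hz'
    · rw [mul_zero]; exact Submodule.zero_mem _
    · intro x y hx hy; rw [mul_add]; exact Submodule.add_mem _ hx hy
    · intro l y hy
      rw [Algebra.TensorProduct.tmul_mul_tmul, one_mul]
      exact Submodule.tmul_mem_baseChange_of_mem _ (Submodule.mem_map_of_mem hy)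
  have h7 : ((1 : ℂ) ⊗ₜ[D.V.K] v') ∈
      ((D.V.gr X (2 * j)).map
        (LinearMap.mulLeft D.V.K (D.V.cl X E ^ m))).baseChange ℂ := by
    have h8 := h6 _ h5
    rw [h4] at h8
    exact smul_mem_cancel (L := ℂ) (pow_ne_zero j D.cmp.ne) h8
  obtain ⟨y, hy, hyv⟩ := mem_of_em_mem h7
  exact ⟨hx, y, hcor y hy hyv⟩

variable (D)

/-- Being a de Rham-Betti class is one of the properties in the definition of the motivated
classes. -/
theorem isSystem_drb : IsSystem (W := T.W) (IsDRB D) where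
  lin X j := ⟨{ carrier := {c | IsDRB D X j c}
                zero_mem' := drb_zero D j
                add_mem' := fun ha hb => ha.add hb
                smul_mem' := fun r _ ha => ha.smul r }, fun _ => Iff.rfl⟩
  cl _ _ _ hz := drb_cl hz
  mul _ _ _ _ _ ha hb := ha.mul hb
  map _ _ f _ _ h := h.map f
  push _ _ f _ _ _ hl h := h.push f hl
  lift X E j hE hL hj x hx h := by
    refine drb_lift (m := X.dim - 2 * j) hE (fun y hy h0 => hl_inj hL hj hy h0) hx ?_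
    rw [show X.dim - 2 * j + j = X.dim - j by omega]
    exact h

/-- The de Rham-Betti classes. -/
def drbPred : ClassPred T.W where
  P := IsDRB D
  gr h := h.1
  zero := drb_zero D _
  add ha hb := ha.add hb
  smul r _ ha := ha.smul r
  cl hz := drb_cl hz
  mul ha hb := ha.mul hb
  map f _ _ h := h.map f
  push f _ _ hl _ h := h.push f hl

end Pool.Agent.N132.DR
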