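import Pool.Agent.Y121.AH.Defs

/-!
# Algebraic de Rham cohomology and de Rham-Betti classes: definitions

In the intended use `k` is an algebraically closed subfield of the field of complex numbers, the
varieties are the smooth projective ones, `T` is the cohomology of the complex manifolds with
rational coefficients with its Hodge decomposition, and `V` is the algebraic de Rham cohomology.
-/

open CategoryTheory AlgebraicGeometry TensorProduct

universe u

namespace Pool.Agent.N132.DR

open Pool.Agent.H914 Pool.Agent.H914.VarClass Pool.Agent.H914.VarClass.Obj
  Pool.Agent.H914.WeilCohomology Pool.Agent.Y121.AH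

variable {k : Type u} [Field k] {𝒱 : VarClass k} {ops : CycleOps 𝒱}

/-- The algebraic de Rham cohomology: a Weil cohomology theory `V` with coefficients in an
algebraically closed field with an embedding into the field of complex numbers, and the comparison
(period) isomorphism of the singular cohomology and `V` with complex coefficients, which is linear
over the complex numbers, compatible with the degrees, products and pull-backs, and which maps the
class of an algebraic cycle of codimension `j` to `c ^ j` times its class in `V` (where
`c = (2 π i)⁻¹`). -/
structure DeRham (T : HodgeTheory ops) where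
  /-- the de Rham cohomology -/
  V : WeilCohomology.{u, 0} ops
  [closed : IsAlgClosed V.K]
  [alg : Algebra V.K ℂ]
  /-- the comparison isomorphism -/
  cmp : Comparison (baseW T.W ℂ) (baseW V ℂ)
  lin : ∀ z : ℂ, (show ℂ from cmp.s (show (baseW T.W ℂ).K from z)) = z

attribute [instance] DeRham.closed DeRham.alg

/-- The de Rham-Betti classes of degree `2 j`: the classes `x` with rational coefficients such that
`(2 π i) ^ j x` is the image of a class `y` of the algebraic de Rham cohomology. -/
def IsDRB {T : HodgeTheory ops} (D : DeRham T) (X : 𝒱.Obj) (j : ℕ) (x : T.W.H X) : Prop :=
  x ∈ T.W.gr X (2 * j) ∧ ∃ y : D.V.H X, D.cmp.e X (em T.W ℂ x) = D.cmp.c ^ j • em D.V ℂ y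

end Pool.Agent.N132.DR
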