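import Mathlib
import Pool.Agent.H977R3.CM.Aut

/-!
# Complex numbers with finitely many conjugates over an algebraically closed subfield
-/

set_option autoImplicit false

namespace Pool.Agent.N132.DR

open Polynomial

/-- A complex number with finitely many conjugates over an algebraically closed field is in the
field. -/
theorem mem_of_finite {F : Type} [Field F] [CharZero F] [Algebra F ℂ] [IsAlgClosed F] {z : ℂ}
    (h : {w | ∃ σ : ℂ ≃ₐ[F] ℂ, w = σ z}.Finite) : ∃ a : F, algebraMap F ℂ a = z := by
  by_cases hz : IsAlgebraic F z
  · have h1 : (minpoly F z).degree = 1 :=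
      IsAlgClosed.degree_eq_one_of_irreducible F (minpoly.irreducible hz.isIntegral)
    exact minpoly.mem_range_of_degree_eq_one F z h1
  · exfalso
    have htr : Transcendental F z := hz
    have hinj : Function.Injective (Polynomial.aeval z : Polynomial F →ₐ[F] ℂ) :=
      transcendental_iff_injective.1 htr
    let L := FractionRing (Polynomial F)
    let j : L →+* ℂ := IsFractionRing.lift (A := Polynomial F)
      (g := ((Polynomial.aeval z : Polynomial F →ₐ[F] ℂ) : Polynomial F →+* ℂ)) hinj
    have hj : ∀ p : Polynomial F, j (algebraMap (Polynomial F) L p) = Polynomial.aeval z p :=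
      fun p => IsFractionRing.lift_algebraMap hinj p
    have key : ∀ n : ℕ, ∃ σ : ℂ ≃ₐ[F] ℂ, σ z = z + n := by
      intro n
      let e : Polynomial F ≃+* Polynomial F :=
        (Polynomial.algEquivAevalXAddC (n : F)).toRingEquiv
      let g : L ≃+* L := IsFractionRing.ringEquivOfRingEquiv e
      obtain ⟨τ, hτ⟩ := Pool.Agent.H977R3.CM.exists_aut j g
      have hg : ∀ p, g (algebraMap (Polynomial F) L p) = algebraMap (Polynomial F) L (e p) :=
        fun p => IsFractionRing.ringEquivOfRingEquiv_algebraMap e p
      refine ⟨AlgEquiv.ofRingEquiv (f := τ) fun a => ?_, ?_⟩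
      · have h1 := hτ (algebraMap (Polynomial F) L (Polynomial.C a))
        have h2 : e (Polynomial.C a) = Polynomial.C a := by
          change Polynomial.algEquivAevalXAddC (n : F) (Polynomial.C a) = _
          simp
        rw [hg, h2, hj, Polynomial.aeval_C] at h1
        exact h1
      · have h1 := hτ (algebraMap (Polynomial F) L Polynomial.X)
        have h2 : e Polynomial.X = Polynomial.X + Polynomial.C (n : F) := by
          change Polynomial.algEquivAevalXAddC (n : F) Polynomial.X = _
          simp
        rw [hg, h2, hj, hj, Polynomial.aeval_X, map_add, Polynomial.aeval_X,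
          Polynomial.aeval_C, map_natCast] at h1
        exact h1
    choose σ hσ using key
    have hfin : Finite {w | ∃ σ : ℂ ≃ₐ[F] ℂ, w = σ z} := h
    let f : ℕ → {w | ∃ σ : ℂ ≃ₐ[F] ℂ, w = σ z} := fun n => ⟨z + n, σ n, (hσ n).symm⟩
    obtain ⟨a, b, hab, he⟩ := Finite.exists_ne_map_eq_of_infinite f
    apply hab
    have h3 : z + (a : ℂ) = z + (b : ℂ) := congrArg Subtype.val he
    exact_mod_cast add_left_cancel h3

end Pool.Agent.N132.DR
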