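import Pool.Agent.N132.DR.Ops
import Pool.Agent.N132.HT.Main

/-!
# The index of the de Rham-Betti classes over the motivated classes
-/

open CategoryTheory AlgebraicGeometry TensorProduct Filter Topology

open scoped ENNReal

set_option autoImplicit false
set_option linter.unusedSectionVars false

universe u

namespace Pool.Agent.N132.DR

open Module
open Pool.Agent.H914 Pool.Agent.H914.VarClass Pool.Agent.H914.VarClass.Obj
  Pool.Agent.H914.WeilCohomology Pool.Agent.Y133.Half Pool.Agent.Y121.AH Pool.Agent.N132.HT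
open Pool.Agent.R920.MT (IsMotivated IsSystem motPred mot_nondeg isSystem_hodge isSystem_gr
  IsSubspace.zero IsSubspace.add IsSubspace.smul)

variable {k : Type u} [Field k] {𝒱 : VarClass k} {ops : CycleOps 𝒱} {T : HodgeTheory ops}
  {X Z : 𝒱.Obj}

/-- The class predicate of a system of classes. -/
def sysPred {W : WeilCohomology.{u, 0} ops} {R : ∀ X : 𝒱.Obj, ℕ → W.H X → Prop} (hR : IsSystem R)
    (hg : ∀ X j c, R X j c → c ∈ W.gr X (2 * j)) : ClassPred W where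
  P := R
  gr {X j c} h := hg X j c h
  zero {X j} := (hR.lin X j).zero
  add {X j _ _} ha hb := (hR.lin X j).add ha hb
  smul {X j} r _ ha := (hR.lin X j).smul r ha
  cl {X j z} hz := hR.cl X j z hz
  mul {X i j a b} ha hb := hR.mul X i j a b ha hb
  map {X Y} f {j a} h := hR.map X Y f j a h
  push {X Y} f {j l} hl {a} h := hR.push X Y f j l a hl h

/-- The index of a system of classes over the motivated classes. -/
theorem exists_ind (X : 𝒱.Obj) [Nontrivial (T.W.H X)] (Q : ClassPred T.W)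
    (hQ : ∀ {Z j c}, IsMotivated T.W Z j c → Q.P Z j c) : ∃ N : ℕ∞, 1 ≤ N ∧
    HasIndex (fun n => finrank T.W.K (Q.sys.C (pw X n)))
      (fun n => finrank T.W.K ((motPred T.W).sys.C (pw X n))) N ∧
    (N = 1 ↔ ∀ n j c, Q.P (pw X n) j c → IsMotivated T.W (pw X n) j c) ∧
    (N ≠ ⊤ → ∃ P, GenBy (motPred T.W).sys Q.sys X P) := by
  have hle : ∀ Z, (motPred T.W).sys.C Z ≤ Q.sys.C Z := fun Z =>
    ClassPred.sys_le (Q := motPred T.W) (R := Q) (fun h => hQ h) Z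
  obtain ⟨N, h1, h2, -, h4⟩ := Sys.stab_index (S := (motPred T.W).sys) (X := X)
    (fun n => mot_nondeg T (pw X n)) (Sys.stab_of_le hle) fun n => hle _
  refine ⟨N, h1, h2, ?_, fun hN => genBy_of_ind hle (fun n => mot_nondeg T (pw X n)) h2 hN⟩
  rw [h4]
  exact forall_congr' fun n => ClassPred.sys_eq_iff (Q := motPred T.W) (R := Q) (fun h => hQ h) _

variable (D : DeRham T)

theorem mot_op (Z : 𝒱.Obj) : ∀ x ∈ (motPred T.W).sys.C Z, ∀ σ,
    op D σ Z (D.cmp.e Z (em T.W ℂ x)) = D.cmp.e Z (em T.W ℂ x) := by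
  intro x hx σ
  have hx' : x ∈ (motPred T.W).sp Z := hx
  refine ClassPred.sp_ind (Q := motPred T.W)
    (q := fun x => op D σ Z (D.cmp.e Z (em T.W ℂ x)) = D.cmp.e Z (em T.W ℂ x))
    ?_ ?_ ?_ hx'
  · intro j x hx
    exact op_drb D σ (hx _ (isSystem_drb D))
  · rw [em_zero, map_zero, map_zero]
  · intro a b ha hb
    rw [em_add, map_add, map_add, ha, hb]

/-- Finite generation over the motivated classes: Hodge classes. -/
theorem hodge_of_gen {Q : ClassPred T.W} {P : 𝒱.Obj} (hP : GenBy (motPred T.W).sys Q.sys X P)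
    {n j : ℕ} {c : T.W.H (pw X n)} (hc : Q.P (pw X n) j c) : IsHodge T (pw X n) j c :=
  ⟨Q.gr hc, pq_of_gen T (emRlz T.W ℂ) hP (mot_gop T) (ClassPred.sp_of (Q := Q) hc) (Q.gr hc)⟩

/-- Finite generation over the motivated classes: de Rham-Betti classes. -/
theorem drb_of_gen' {Q : ClassPred T.W} {P : 𝒱.Obj} (hP : GenBy (motPred T.W).sys Q.sys X P)
    {n j : ℕ} {c : T.W.H (pw X n)} (hc : Q.P (pw X n) j c) : IsDRB D (pw X n) j c :=
  drb_of_gen D hP (mot_op D) (ClassPred.sp_of (Q := Q) hc) (Q.gr hc)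

theorem dim_eq (Q : ClassPred T.W) (Z : 𝒱.Obj) :
    finrank T.W.K (Q.sys.C Z) = dimBy T.W Q.P Z := rfl

section Divides

/-- The intersection of three systems of classes. -/
theorem isSystem_inter {W : WeilCohomology.{u, 0} ops} {R R' : ∀ X : 𝒱.Obj, ℕ → W.H X → Prop}
    (hR : IsSystem R) (hR' : IsSystem R') :
    IsSystem (W := W) (fun X j c => R X j c ∧ R' X j c) where
  lin X j := ⟨{ carrier := {c | R X j c ∧ R' X j c}
                zero_mem' := ⟨(hR.lin X j).zero, (hR'.lin X j).zero⟩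
                add_mem' := fun ha hb => ⟨(hR.lin X j).add ha.1 hb.1, (hR'.lin X j).add ha.2 hb.2⟩
                smul_mem' := fun r _ ha =>
                  ⟨(hR.lin X j).smul r ha.1, (hR'.lin X j).smul r ha.2⟩ }, fun _ => Iff.rfl⟩
  cl X j z hz := ⟨hR.cl X j z hz, hR'.cl X j z hz⟩
  mul X i j a b ha hb := ⟨hR.mul X i j a b ha.1 hb.1, hR'.mul X i j a b ha.2 hb.2⟩
  map X Y f j a h := ⟨hR.map X Y f j a h.1, hR'.map X Y f j a h.2⟩
  push X Y f j l a hl h := ⟨hR.push X Y f j l a hl h.1, hR'.push X Y f j l a hl h.2⟩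
  lift X D j hD hL hj x hx h := ⟨hR.lift X D j hD hL hj x hx h.1, hR'.lift X D j hD hL hj x hx h.2⟩

theorem lifts_sys {R : ∀ X : 𝒱.Obj, ℕ → T.W.H X → Prop} (hR : IsSystem R)
    (hg : ∀ X j c, R X j c → c ∈ T.W.gr X (2 * j)) : Lifts T (sysPred hR hg) := by
  intro X D hD j hj v hv
  have h0 : v ∈ T.W.gr X (2 * X.dim - 2 * j) := by
    have := (sysPred hR hg).gr hv
    rwa [show 2 * (X.dim - j) = 2 * X.dim - 2 * j by omega] at this
  obtain ⟨x, hx, hxv⟩ := hl_surj hD.2.1 hj h0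
  have h1 : R X (X.dim - j) (T.W.cl X D ^ (X.dim - 2 * j) * x) := by
    rw [hxv]; exact hv
  exact ⟨x, hR.lift X D j hD.1 hD.2.1 hj x hx h1, hxv⟩

/-- **The finite indices divide the indices of the larger systems.** -/
theorem ind_dvd (X : 𝒱.Obj) [Nontrivial (T.W.H X)] {R R' : ∀ X : 𝒱.Obj, ℕ → T.W.H X → Prop}
    (hR : IsSystem R) (hg : ∀ X j c, R X j c → c ∈ T.W.gr X (2 * j)) (hR' : IsSystem R')
    (hg' : ∀ X j c, R' X j c → c ∈ T.W.gr X (2 * j))
    (hH : ∀ n j c, R (pw X n) j c → IsHodge T (pw X n) j c)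
    (hle : ∀ n j c, R (pw X n) j c → R' (pw X n) j c) {N N' : ℕ∞} (h1 : 1 ≤ N)
    (hN : HasIndex (fun n => dimBy T.W R (pw X n))
      (fun n => dimBy T.W (IsMotivated T.W) (pw X n)) N)
    (hN' : HasIndex (fun n => dimBy T.W R' (pw X n))
      (fun n => dimBy T.W (IsMotivated T.W) (pw X n)) N') : N ≠ ⊤ → N ∣ N' := by
  intro hfin
  have hQ : IsSystem (W := T.W) (fun X j c => (R X j c ∧ IsHodge T X j c) ∧ R' X j c) :=
    isSystem_inter (isSystem_inter hR (isSystem_hodge T)) hR'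
  have hQg : ∀ X j c, ((R X j c ∧ IsHodge T X j c) ∧ R' X j c) → c ∈ T.W.gr X (2 * j) :=
    fun X j c h => hg X j c h.1.1
  have hnd : ∀ Z, (sysPred hQ hQg).sys.Nondeg Z := fun Z _ hx h =>
    q_nondeg_sys (Q := sysPred hQ hQg) (fun {X j x} h => h.1.2) (lifts_sys hQ hQg) hx h
  have hsub : ∀ Z, (sysPred hQ hQg).sys.C Z ≤ (sysPred hR' hg').sys.C Z := fun Z =>
    ClassPred.sys_le (Q := sysPred hQ hQg) (R := sysPred hR' hg') (fun h => h.2) Z
  obtain ⟨M, hM1, hM2, -, -⟩ := Sys.stab_index (S := (sysPred hQ hQg).sys) (X := X)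
    (fun n => hnd _) (Sys.stab_of_le hsub) fun n => hsub _
  have heq : ∀ n, finrank T.W.K ((sysPred hQ hQg).sys.C (pw X n)) = dimBy T.W R (pw X n) := by
    intro n
    have h2 : (sysPred hQ hQg).sys.C (pw X n) = (sysPred hR hg).sys.C (pw X n) :=
      le_antisymm (Submodule.span_mono (by rintro c ⟨j, hc⟩; exact ⟨j, hc.1.1⟩))
        (Submodule.span_mono (by rintro c ⟨j, hc⟩; exact ⟨j, ⟨hc, hH n j c hc⟩, hle n j c hc⟩))
    rw [h2]
    rfl
  have hM3 : Tendsto (fun n => (dimBy T.W R' (pw X n) : ℝ≥0∞) / dimBy T.W R (pw X n)) atTop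
      (𝓝 (M : ℝ≥0∞)) := by
    have h2 : Tendsto (fun n => (finrank T.W.K ((sysPred hR' hg').sys.C (pw X n)) : ℝ≥0∞) /
      finrank T.W.K ((sysPred hQ hQg).sys.C (pw X n))) atTop (𝓝 (M : ℝ≥0∞)) := hM2
    simp only [heq] at h2
    exact h2
  have hpos : ∀ n, 0 < dimBy T.W R (pw X n) := by
    intro n
    rw [← heq n]
    exact Sys.finrank_pos_pw (sysPred hQ hQg).sys n
  have hN0 : (N : ℝ≥0∞) ≠ 0 := by
    have h2 : (1 : ℝ≥0∞) ≤ (N : ℝ≥0∞) := by exact_mod_cast h1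
    exact (lt_of_lt_of_le one_pos h2).ne'
  have hNt : (N : ℝ≥0∞) ≠ ⊤ := fun h => hfin (ENat.toENNReal_eq_top.1 h)
  have hM0 : (M : ℝ≥0∞) ≠ 0 := by
    have h2 : (1 : ℝ≥0∞) ≤ (M : ℝ≥0∞) := by exact_mod_cast hM1
    exact (lt_of_lt_of_le one_pos h2).ne'
  have h3 := ENNReal.Tendsto.mul hN (Or.inl hN0) hM3 (Or.inl hM0)
  have h4 : (fun n => (dimBy T.W R (pw X n) : ℝ≥0∞) / dimBy T.W (IsMotivated T.W) (pw X n) *
      ((dimBy T.W R' (pw X n) : ℝ≥0∞) / dimBy T.W R (pw X n))) =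
      fun n => (dimBy T.W R' (pw X n) : ℝ≥0∞) / dimBy T.W (IsMotivated T.W) (pw X n) := by
    funext n
    have h5 : (dimBy T.W R (pw X n) : ℝ≥0∞) ≠ 0 := by exact_mod_cast (hpos n).ne'
    have h6 : (dimBy T.W R (pw X n) : ℝ≥0∞) ≠ ⊤ := ENNReal.natCast_ne_top _
    rw [div_eq_mul_inv, div_eq_mul_inv, div_eq_mul_inv]
    calc (dimBy T.W R (pw X n) : ℝ≥0∞) * (dimBy T.W (IsMotivated T.W) (pw X n) : ℝ≥0∞)⁻¹ *
          ((dimBy T.W R' (pw X n) : ℝ≥0∞) * (dimBy T.W R (pw X n) : ℝ≥0∞)⁻¹)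
        = (dimBy T.W R (pw X n) : ℝ≥0∞) * (dimBy T.W R (pw X n) : ℝ≥0∞)⁻¹ *
          ((dimBy T.W R' (pw X n) : ℝ≥0∞) *
            (dimBy T.W (IsMotivated T.W) (pw X n) : ℝ≥0∞)⁻¹) := by ring
      _ = _ := by rw [ENNReal.mul_inv_cancel h5 h6, one_mul]
  rw [h4] at h3
  have h5 := tendsto_nhds_unique hN' h3
  refine ⟨M, ?_⟩
  exact_mod_cast h5

end Divides

/-- **The main theorem.** -/
theorem main (X : 𝒱.Obj) [Nontrivial (T.W.H X)] :
    (∃ (N : ℕ) (H B : ℕ∞), 1 ≤ N ∧ (H = N ∨ H = ⊤) ∧ (B = N ∨ B = ⊤) ∧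
      HasIndex (fun n => dimBy T.W (IsHodge T) (pw X n))
        (fun n => dimBy T.W (IsMotivated T.W) (pw X n)) H ∧
      HasIndex (fun n => dimBy T.W (IsDRB D) (pw X n))
        (fun n => dimBy T.W (IsMotivated T.W) (pw X n)) B ∧
      (H = 1 ↔ ∀ n j c, IsHodge T (pw X n) j c → IsMotivated T.W (pw X n) j c) ∧
      (B = 1 ↔ ∀ n j c, IsDRB D (pw X n) j c → IsMotivated T.W (pw X n) j c) ∧
      (H ≠ ⊤ → ∀ n j c, IsHodge T (pw X n) j c → IsDRB D (pw X n) j c) ∧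
      (B ≠ ⊤ → ∀ n j c, IsDRB D (pw X n) j c → IsHodge T (pw X n) j c)) ∧
    ∀ R : ∀ X : 𝒱.Obj, ℕ → T.W.H X → Prop, IsSystem R →
      (∀ X j c, R X j c → c ∈ T.W.gr X (2 * j)) →
      ∃ N : ℕ∞, 1 ≤ N ∧ HasIndex (fun n => dimBy T.W R (pw X n))
        (fun n => dimBy T.W (IsMotivated T.W) (pw X n)) N ∧
        (N = 1 ↔ ∀ n j c, R (pw X n) j c → IsMotivated T.W (pw X n) j c) ∧
        (N ≠ ⊤ → ∀ n j c, R (pw X n) j c →
          IsHodge T (pw X n) j c ∧ IsDRB D (pw X n) j c) := by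
  constructor
  · obtain ⟨H, hH1, hH2, hH3, hH4⟩ := exists_ind X (hodgePred T)
      (fun h => h _ (isSystem_hodge T))
    obtain ⟨B, hB1, hB2, hB3, hB4⟩ := exists_ind X (drbPred D) (fun h => h _ (isSystem_drb D))
    have hHB : H ≠ ⊤ → ∀ n j c, IsHodge T (pw X n) j c → IsDRB D (pw X n) j c := by
      intro h n j c hc
      obtain ⟨P, hP⟩ := hH4 h
      exact drb_of_gen' D (Q := hodgePred T) hP hc
    have hBH : B ≠ ⊤ → ∀ n j c, IsDRB D (pw X n) j c → IsHodge T (pw X n) j c := by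
      intro h n j c hc
      obtain ⟨P, hP⟩ := hB4 h
      exact hodge_of_gen (Q := drbPred D) hP hc
    have hle : ∀ (Q Q' : ClassPred T.W) (n : ℕ), (∀ j c, Q.P (pw X n) j c → Q'.P (pw X n) j c) →
        finrank T.W.K (Q.sys.C (pw X n)) ≤ finrank T.W.K (Q'.sys.C (pw X n)) := by
      intro Q Q' n h
      refine Submodule.finrank_mono ?_
      refine Submodule.span_mono ?_
      rintro c ⟨j, hc⟩
      exact ⟨j, h j c hc⟩
    obtain ⟨N, hN1, hN⟩ := common_value (fun b : Bool => bif b then H else B)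
      (by rintro (_ | _)
          · exact hB1
          · exact hH1)
      (by rintro (_ | _) (_ | _) h
          · exact le_rfl
          · exact ind_le hB2 hH2 fun n => hle _ _ n (hBH h n)
          · exact ind_le hH2 hB2 fun n => hle _ _ n (hHB h n)
          · exact le_rfl)
    exact ⟨N, H, B, hN1, hN true, hN false, hH2, hB2, hH3, hB3, hHB, hBH⟩
  · intro R hR hg
    obtain ⟨N, h1, h2, h3, h4⟩ := exists_ind X (sysPred hR hg) (fun h => h _ hR)
    refine ⟨N, h1, h2, h3, fun h n j c hc => ?_⟩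
    obtain ⟨P, hP⟩ := h4 h
    exact ⟨hodge_of_gen (Q := sysPred hR hg) hP hc, drb_of_gen' D (Q := sysPred hR hg) hP hc⟩

end Pool.Agent.N132.DR
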