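import Pool.Agent.N132.DR.Cls
import Pool.Agent.N132.DR.Field

/-!
# The difference of the Galois actions on the singular and the de Rham cohomology
-/

open CategoryTheory AlgebraicGeometry TensorProduct

set_option autoImplicit false
set_option linter.unusedSectionVars false

universe u

namespace Pool.Agent.N132.DR

open Module
open Pool.Agent.H914 Pool.Agent.H914.VarClass Pool.Agent.H914.VarClass.Obj
  Pool.Agent.H914.WeilCohomology Pool.Agent.Y133.Half Pool.Agent.Y121.AH Pool.Agent.N132.HT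
open Pool.Agent.Y132.AH (scaleOp scaleOp_apply)

variable {k : Type u} [Field k] {𝒱 : VarClass k} {ops : CycleOps 𝒱} {T : HodgeTheory ops}
  (D : DeRham T) {X Y Z P : 𝒱.Obj}

/-- The action of an automorphism on the singular cohomology with complex coefficients. -/
noncomputable def sB (T : HodgeTheory ops) (σ : ℂ ≃+* ℂ) (Z : 𝒱.Obj) :
    (baseW T.W ℂ).H Z →+* (baseW T.W ℂ).H Z := psi T.W (ratAlg T σ.toRingHom) Z

/-- The action of an automorphism on the de Rham cohomology with complex coefficients. -/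
noncomputable def sD (σ : ℂ ≃ₐ[D.V.K] ℂ) (Z : 𝒱.Obj) :
    (baseW D.V ℂ).H Z →+* (baseW D.V ℂ).H Z := psi D.V (σ : ℂ →ₐ[D.V.K] ℂ) Z

theorem s_symm (z : ℂ) :
    (show ℂ from D.cmp.s.symm (show (baseW D.V ℂ).K from z)) = z := by
  apply D.cmp.s.injective
  rw [RingEquiv.apply_symm_apply]
  exact (D.lin z).symm

/-- The operator `σ_dR σ_B⁻¹`. -/
noncomputable def bas (σ : ℂ ≃ₐ[D.V.K] ℂ) (Z : 𝒱.Obj) :
    (baseW D.V ℂ).H Z →ₗ[(baseW D.V ℂ).K] (baseW D.V ℂ).H Z where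
  toFun x := sD D σ Z (D.cmp.e Z (sB T (σ.symm : ℂ ≃+* ℂ) Z ((D.cmp.e Z).symm x)))
  map_add' x y := by simp only [map_add]
  map_smul' r x := by
    have h1 : (D.cmp.e Z).symm (r • x) = D.cmp.s.symm r • (D.cmp.e Z).symm x := by
      apply (D.cmp.e Z).injective
      rw [RingEquiv.apply_symm_apply, D.cmp.semi, RingEquiv.apply_symm_apply,
        RingEquiv.apply_symm_apply]
    rw [h1, sB, psi_smul, D.cmp.semi, sD, psi_smul]
    congr 1
    have h2 : (show ℂ from D.cmp.s.symm r) = r := s_symm D r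
    change σ (show ℂ from D.cmp.s (show (baseW T.W ℂ).K from
      σ.symm (show ℂ from D.cmp.s.symm r))) = r
    rw [h2, D.lin]
    exact σ.apply_symm_apply r

theorem bas_e (σ : ℂ ≃ₐ[D.V.K] ℂ) (x : (baseW T.W ℂ).H Z) :
    bas D σ Z (D.cmp.e Z x) = sD D σ Z (D.cmp.e Z (sB T (σ.symm : ℂ ≃+* ℂ) Z x)) := by
  change sD D σ Z (D.cmp.e Z (sB T (σ.symm : ℂ ≃+* ℂ) Z ((D.cmp.e Z).symm (D.cmp.e Z x)))) = _
  rw [RingEquiv.symm_apply_apply]

theorem bas_mul (σ : ℂ ≃ₐ[D.V.K] ℂ) (x y : (baseW D.V ℂ).H Z) :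
    bas D σ Z (x * y) = bas D σ Z x * bas D σ Z y := by
  change sD D σ Z (D.cmp.e Z (sB T (σ.symm : ℂ ≃+* ℂ) Z ((D.cmp.e Z).symm (x * y)))) = _
  rw [map_mul, map_mul, map_mul, map_mul]
  rfl

theorem bas_gr (σ : ℂ ≃ₐ[D.V.K] ℂ) {i : ℕ} {x : (baseW D.V ℂ).H Z}
    (hx : x ∈ (baseW D.V ℂ).gr Z i) : bas D σ Z x ∈ (baseW D.V ℂ).gr Z i := by
  obtain ⟨x, rfl⟩ := (D.cmp.e Z).surjective x
  rw [bas_e]
  exact psi_gr _ (D.cmp.gr.2 (psi_gr _ (D.cmp.gr.1 hx)))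

theorem bas_map (σ : ℂ ≃ₐ[D.V.K] ℂ) (f : X ⟶ Y) (x : (baseW D.V ℂ).H Y) :
    bas D σ X ((baseW D.V ℂ).map f x) = (baseW D.V ℂ).map f (bas D σ Y x) := by
  obtain ⟨x, rfl⟩ := (D.cmp.e Y).surjective x
  rw [← D.cmp.nat, bas_e, bas_e, sB, psi_map, D.cmp.nat, sD, psi_map]
  rfl

/-- The image of the constant of the comparison isomorphism. -/
noncomputable def cs (σ : ℂ ≃ₐ[D.V.K] ℂ) : (baseW D.V ℂ).K :=
  kap D.V (σ : ℂ →ₐ[D.V.K] ℂ) D.cmp.c

theorem cs_ne (σ : ℂ ≃ₐ[D.V.K] ℂ) : cs D σ ≠ 0 := fun h =>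
  D.cmp.ne ((map_eq_zero (kap D.V (σ : ℂ →ₐ[D.V.K] ℂ))).1 h)

theorem bas_push (σ : ℂ ≃ₐ[D.V.K] ℂ) (f : X ⟶ Y) (x : (baseW D.V ℂ).H X) :
    (cs D σ ^ X.dim * D.cmp.c ^ Y.dim) • bas D σ Y ((baseW D.V ℂ).push f x) =
      (D.cmp.c ^ X.dim * cs D σ ^ Y.dim) • (baseW D.V ℂ).push f (bas D σ X x) := by
  obtain ⟨x, rfl⟩ := (D.cmp.e X).surjective x
  have h1 := D.cmp.push f x
  have h2 := congrArg (bas D σ Y) h1
  rw [map_smul, map_smul, bas_e] at h2
  have h3 := D.cmp.push f (sB T (σ.symm : ℂ ≃+* ℂ) X x)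
  have h4 := congrArg (sD D σ Y) h3
  rw [sD, psi_smul, psi_smul, psi_push, map_pow, map_pow] at h4
  have h5 : sB T (σ.symm : ℂ ≃+* ℂ) Y ((baseW T.W ℂ).push f x) =
    (baseW T.W ℂ).push f (sB T (σ.symm : ℂ ≃+* ℂ) X x) := psi_push _ f x
  rw [h5] at h2
  rw [bas_e]
  have h6 : cs D σ ^ X.dim • sD D σ Y (D.cmp.e Y ((baseW T.W ℂ).push f
      (sB T (σ.symm : ℂ ≃+* ℂ) X x))) = cs D σ ^ Y.dim • (baseW D.V ℂ).push f
        (sD D σ X (D.cmp.e X (sB T (σ.symm : ℂ ≃+* ℂ) X x))) := h4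
  rw [mul_smul, ← h2, smul_comm, h6, smul_smul]

/-- The quotient of the constants. -/
noncomputable def rho (σ : ℂ ≃ₐ[D.V.K] ℂ) : (baseW D.V ℂ).K := D.cmp.c * (cs D σ)⁻¹

theorem rho_mul (σ : ℂ ≃ₐ[D.V.K] ℂ) (j : ℕ) : rho D σ ^ j * cs D σ ^ j = D.cmp.c ^ j := by
  rw [← mul_pow, rho, mul_assoc, inv_mul_cancel₀ (cs_ne D σ), mul_one]

/-- The twisted operators. -/
noncomputable def op (σ : ℂ ≃ₐ[D.V.K] ℂ) (Z : 𝒱.Obj) :
    (baseW D.V ℂ).H Z →ₗ[(baseW D.V ℂ).K] (baseW D.V ℂ).H Z :=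
  (scaleOp ((baseW D.V ℂ).isInternal Z) fun i => rho D σ ^ (i / 2)) ∘ₗ bas D σ Z

theorem op_gr (σ : ℂ ≃ₐ[D.V.K] ℂ) {j : ℕ} {x : (baseW D.V ℂ).H Z}
    (hx : x ∈ (baseW D.V ℂ).gr Z (2 * j)) : op D σ Z x = rho D σ ^ j • bas D σ Z x := by
  have h1 : op D σ Z x = scaleOp ((baseW D.V ℂ).isInternal Z) (fun i => rho D σ ^ (i / 2))
      (bas D σ Z x) := rfl
  rw [h1, scaleOp_apply _ _ (bas_gr D σ hx)]
  congr 2
  omega

/-- The family of the twisted operators. -/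
noncomputable def opsDR : Ops (baseW D.V ℂ) (ℂ ≃ₐ[D.V.K] ℂ) where
  op := op D
  gr σ Z j x hx := by
    rw [op_gr D σ hx]
    exact Submodule.smul_mem _ _ (bas_gr D σ hx)
  mul σ Z a b ha hb := by
    refine even_ind (p := fun a => op D σ Z (a * b) = op D σ Z a * op D σ Z b) ?_ ?_ ?_ ha
    · intro i a ha
      refine even_ind (p := fun b => op D σ Z (a * b) = op D σ Z a * op D σ Z b) ?_ ?_ ?_ hb
      · intro j b hb
        have h1 : a * b ∈ (baseW D.V ℂ).gr Z (2 * (i + j)) := by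
          rw [mul_add]; exact (baseW D.V ℂ).mul_mem ha hb
        rw [op_gr D σ h1, op_gr D σ ha, op_gr D σ hb, bas_mul, smul_mul_smul_comm, pow_add]
      · rw [mul_zero, map_zero, mul_zero]
      · intro x y hx hy; rw [mul_add, map_add, map_add, hx, hy, mul_add]
    · rw [zero_mul, map_zero, zero_mul]
    · intro x y hx hy; rw [add_mul, map_add, map_add, hx, hy, add_mul]
  map σ X Y f b hb := by
    refine even_ind (p := fun b => op D σ X ((baseW D.V ℂ).map f b) =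
      (baseW D.V ℂ).map f (op D σ Y b)) ?_ ?_ ?_ hb
    · intro j b hb
      rw [op_gr D σ ((baseW D.V ℂ).map_mem f hb), op_gr D σ hb, map_smul, bas_map]
    · simp only [map_zero]
    · intro x y hx hy; simp only [map_add, hx, hy]
  push σ X Y f a ha := by
    refine even_ind (p := fun a => op D σ Y ((baseW D.V ℂ).push f a) =
      (baseW D.V ℂ).push f (op D σ X a)) ?_ ?_ ?_ ha
    · intro j a ha
      rw [op_gr D σ ha, map_smul]
      by_cases hj : j + Y.dim < X.dim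
      · rw [push_gr0 f hj ha, push_gr0 f hj (bas_gr D σ ha), map_zero, smul_zero]
      · obtain ⟨l, hl⟩ : ∃ l, l + X.dim = j + Y.dim := ⟨j + Y.dim - X.dim, by omega⟩
        rw [op_gr D σ (push_gr1 f hl ha)]
        have hne : cs D σ ^ X.dim * D.cmp.c ^ Y.dim * (cs D σ ^ l * cs D σ ^ j) ≠ 0 :=
          mul_ne_zero (mul_ne_zero (pow_ne_zero _ (cs_ne D σ)) (pow_ne_zero _ D.cmp.ne))
            (mul_ne_zero (pow_ne_zero _ (cs_ne D σ)) (pow_ne_zero _ (cs_ne D σ)))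
        apply smul_right_injective _ hne
        have h1 := bas_push D σ f a
        have h2 := rho_mul D σ l
        have h3 := rho_mul D σ j
        have e1 : (cs D σ ^ X.dim * D.cmp.c ^ Y.dim * (cs D σ ^ l * cs D σ ^ j)) •
            rho D σ ^ l • bas D σ Y ((baseW D.V ℂ).push f a) =
            (D.cmp.c ^ l * cs D σ ^ j) • ((D.cmp.c ^ X.dim * cs D σ ^ Y.dim) •
              (baseW D.V ℂ).push f (bas D σ X a)) := by
          rw [← h1, ← h2, smul_smul, smul_smul]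
          congr 1
          ring
        have e2 : (cs D σ ^ X.dim * D.cmp.c ^ Y.dim * (cs D σ ^ l * cs D σ ^ j)) •
            rho D σ ^ j • (baseW D.V ℂ).push f (bas D σ X a) =
            (D.cmp.c ^ j * (cs D σ ^ X.dim * D.cmp.c ^ Y.dim * cs D σ ^ l)) •
              (baseW D.V ℂ).push f (bas D σ X a) := by
          rw [← h3, smul_smul]
          congr 1
          ring
        beta_reduce
        rw [e1, e2, smul_smul]
        congr 1
        have e3 : D.cmp.c ^ l * D.cmp.c ^ X.dim = D.cmp.c ^ j * D.cmp.c ^ Y.dim := by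
          rw [← pow_add, ← pow_add, hl]
        have e4 : cs D σ ^ j * cs D σ ^ Y.dim = cs D σ ^ X.dim * cs D σ ^ l := by
          rw [← pow_add, ← pow_add]
          congr 1
          omega
        calc D.cmp.c ^ l * cs D σ ^ j * (D.cmp.c ^ X.dim * cs D σ ^ Y.dim)
            = (D.cmp.c ^ l * D.cmp.c ^ X.dim) * (cs D σ ^ j * cs D σ ^ Y.dim) := by ring
          _ = (D.cmp.c ^ j * D.cmp.c ^ Y.dim) * (cs D σ ^ X.dim * cs D σ ^ l) := by
            rw [e3, e4]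
          _ = _ := by ring
    · simp only [map_zero]
    · intro x y hx hy; simp only [map_add, hx, hy]

/-- The realisation in the de Rham cohomology with complex coefficients. -/
noncomputable def dRlz : Rlz T.W (baseW D.V ℂ) where
  s := (D.cmp.s.toRingHom).comp (algebraMap T.W.K ℂ)
  c := D.cmp.c
  ne := D.cmp.ne
  E X := (D.cmp.e X).toRingHom.comp
    (Algebra.TensorProduct.includeRight : T.W.H X →ₐ[T.W.K] ℂ ⊗[T.W.K] T.W.H X).toRingHom
  semi X r a := by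
    change D.cmp.e X (em T.W ℂ (r • a)) = _ • D.cmp.e X (em T.W ℂ a)
    rw [em_smul, D.cmp.semi]
    rfl
  gr {X i a} ha := by
    change D.cmp.e X (em T.W ℂ a) ∈ _
    exact D.cmp.gr.2 (em_gr ha)
  nat {X Y} f b := by
    change D.cmp.e X (em T.W ℂ (T.W.map f b)) = (baseW D.V ℂ).map f (D.cmp.e Y (em T.W ℂ b))
    rw [← em_map, D.cmp.nat]
  push {X Y} f a := by
    change D.cmp.c ^ X.dim • D.cmp.e Y (em T.W ℂ (T.W.push f a)) =
      D.cmp.c ^ Y.dim • (baseW D.V ℂ).push f (D.cmp.e X (em T.W ℂ a))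
    have h := D.cmp.push f (em T.W ℂ a)
    rw [em_push] at h
    exact h

theorem dRlz_apply (x : T.W.H Z) : (dRlz D).E Z x = D.cmp.e Z (em T.W ℂ x) := rfl

theorem op_em (σ : ℂ ≃ₐ[D.V.K] ℂ) {j : ℕ} {x : T.W.H Z} (hx : x ∈ T.W.gr Z (2 * j)) :
    op D σ Z (D.cmp.e Z (em T.W ℂ x)) = rho D σ ^ j • sD D σ Z (D.cmp.e Z (em T.W ℂ x)) := by
  rw [op_gr D σ (D.cmp.gr.2 (em_gr hx)), bas_e, sB, psi_em]

theorem op_drb (σ : ℂ ≃ₐ[D.V.K] ℂ) {j : ℕ} {x : T.W.H Z} (hx : IsDRB D Z j x) :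
    op D σ Z (D.cmp.e Z (em T.W ℂ x)) = D.cmp.e Z (em T.W ℂ x) := by
  obtain ⟨hx, y, hy⟩ := hx
  rw [op_em D σ hx, hy, sD, psi_smul, psi_em, map_pow, smul_smul]
  congr 1
  exact rho_mul D σ j

section Descent

variable {F : WeilCohomology.{u, 0} ops} [Algebra F.K ℂ]

/-- The coordinate functions. -/
noncomputable def coordC (F : WeilCohomology.{u, 0} ops) [Algebra F.K ℂ] (Z : 𝒱.Obj)
    (φ : F.H Z →ₗ[F.K] F.K) : (baseW F ℂ).H Z →ₗ[(baseW F ℂ).K] (baseW F ℂ).K :=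
  formBase ℂ φ

theorem coordC_em (φ : F.H Z →ₗ[F.K] F.K) (a : F.H Z) :
    coordC F Z φ (em F ℂ a) = ex F ℂ (φ a) := by
  have h : formBase ℂ φ ((1 : ℂ) ⊗ₜ[F.K] a) = algebraMap F.K ℂ (φ a) := by
    rw [formBase_tmul, one_mul]
  exact h

theorem coordC_psi (φ : F.H Z →ₗ[F.K] F.K) (σ : ℂ →ₐ[F.K] ℂ) (y : (baseW F ℂ).H Z) :
    coordC F Z φ (psi F σ Z y) = kap F σ (coordC F Z φ y) := by
  refine ind_em (q := fun y => coordC F Z φ (psi F σ Z y) = kap F σ (coordC F Z φ y))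
    ?_ ?_ ?_ y
  · simp only [map_zero]
  · intro x y hx hy; simp only [map_add, hx, hy]
  · intro l a
    rw [psi_smul, psi_em, map_smul, map_smul, coordC_em, smul_eq_mul, smul_eq_mul, map_mul]
    congr 1
    exact (σ.commutes (φ a)).symm

theorem ex_em_smul (r : F.K) (a : F.H Z) : ex F ℂ r • em F ℂ a = em F ℂ (r • a) :=
  (em_smul r a).symm

theorem em_sum {ι : Type} (s : Finset ι) (f : ι → F.H Z) :
    em F ℂ (∑ i ∈ s, f i) = ∑ i ∈ s, em F ℂ (f i) := by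
  classical
  induction s using Finset.induction_on with
  | empty => simp only [Finset.sum_empty, em_zero]
  | insert a s ha ih => rw [Finset.sum_insert ha, Finset.sum_insert ha, em_add, ih]

/-- Classes with finitely many conjugates are defined over the algebraically closed field. -/
theorem desc [IsAlgClosed F.K] {y : (baseW F ℂ).H Z}
    (h : {w | ∃ σ : ℂ ≃ₐ[F.K] ℂ, w = psi F (σ : ℂ →ₐ[F.K] ℂ) Z y}.Finite) :
    ∃ y₀, y = em F ℂ y₀ := by
  classical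
  let b := Module.finBasis F.K (F.H Z)
  have h1 : ∀ y : (baseW F ℂ).H Z, y = ∑ i, coordC F Z (b.coord i) y • em F ℂ (b i) := by
    intro y
    refine ind_em (q := fun y => y = ∑ i, coordC F Z (b.coord i) y • em F ℂ (b i))
      ?_ ?_ ?_ y
    · simp only [map_zero, zero_smul, Finset.sum_const_zero]
    · intro x y hx hy
      simp only [map_add, add_smul, Finset.sum_add_distrib]
      rw [← hx, ← hy]
    · intro l a
      simp only [map_smul, coordC_em, smul_eq_mul, mul_smul, ex_em_smul]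
      rw [← Finset.smul_sum, ← em_sum]
      congr 2
      exact (b.sum_repr a).symm
  have h2 : ∀ i, ∃ a : F.K, algebraMap F.K ℂ a = coordC F Z (b.coord i) y := by
    intro i
    refine mem_of_finite ((h.image (coordC F Z (b.coord i))).subset ?_)
    rintro _ ⟨σ, rfl⟩
    exact ⟨_, ⟨σ, rfl⟩, coordC_psi _ _ _⟩
  choose a ha using h2
  refine ⟨∑ i, a i • b i, ?_⟩
  rw [em_sum]
  refine (h1 y).trans (Finset.sum_congr rfl fun i _ => ?_)
  rw [← ex_em_smul]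
  congr 1
  exact (ha i).symm

end Descent

/-- **Finite generation over de Rham-Betti classes implies de Rham-Betti.** -/
theorem drb_of_gen {S R : Sys T.W} (hgen : GenBy S R X P)
    (hS : ∀ Z, ∀ x ∈ S.C Z, ∀ σ, op D σ Z (D.cmp.e Z (em T.W ℂ x)) = D.cmp.e Z (em T.W ℂ x))
    {n j : ℕ} {v : T.W.H (pw X n)} (hv : v ∈ R.C (pw X n))
    (hj : v ∈ T.W.gr (pw X n) (2 * j)) : IsDRB D (pw X n) j v := by
  classical
  obtain ⟨F, -, hFS, hfin⟩ := finite_values (opsDR D) (dRlz D) hgen hv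
  have hne : D.cmp.c ^ j ≠ 0 := pow_ne_zero _ D.cmp.ne
  set y : (baseW D.V ℂ).H (pw X n) :=
    (D.cmp.c ^ j)⁻¹ • D.cmp.e (pw X n) (em T.W ℂ v) with hy
  have hy' : D.cmp.e (pw X n) (em T.W ℂ v) = D.cmp.c ^ j • y := by
    rw [hy, smul_smul, mul_inv_cancel₀ hne, one_smul]
  have key : {w | ∃ σ : ℂ ≃ₐ[D.V.K] ℂ, w = psi D.V (σ : ℂ →ₐ[D.V.K] ℂ) (pw X n) y}.Finite := by
    refine (hfin.image fun w => (D.cmp.c ^ j)⁻¹ • w).subset ?_
    rintro _ ⟨σ, rfl⟩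
    refine ⟨op D σ (pw X n) (D.cmp.e (pw X n) (em T.W ℂ v)),
      ⟨σ, fun p hp => hS p.1 p.2 (hFS p hp) σ, rfl⟩, ?_⟩
    beta_reduce
    rw [op_em D σ hj, hy', sD, psi_smul, map_pow, smul_smul, smul_smul]
    have h1 : (D.cmp.c ^ j)⁻¹ * rho D σ ^ j * kap D.V (σ : ℂ →ₐ[D.V.K] ℂ) D.cmp.c ^ j = 1 := by
      have h2 := rho_mul D σ j
      rw [mul_assoc]
      change (D.cmp.c ^ j)⁻¹ * (rho D σ ^ j * cs D σ ^ j) = 1
      rw [h2, inv_mul_cancel₀ hne]
    rw [h1, one_smul]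
  obtain ⟨y₀, hy₀⟩ := desc key
  exact ⟨hj, y₀, by rw [hy', hy₀]⟩

end Pool.Agent.N132.DR
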